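import Pool.Agent.Helper35.PM.Defs2

/-!
# Ramsey's theorem for graphs, embedding of a bipartite graph in a cube
-/

set_option autoImplicit false

namespace Pool.Agent.Helper35.PM

open Finset
open scoped Classical

theorem ramsey_aux {V : Type} (G : SimpleGraph V) (m : ℕ) : ∀ (p q : ℕ), p + q = m →
    ∀ S : Finset V, 2 ^ m ≤ S.card →
      (∃ K : Finset V, K.card = p ∧ ∀ x ∈ K, x ∈ S ∧ ∀ y ∈ K, x ≠ y → G.Adj x y) ∨
      (∃ K : Finset V, K.card = q ∧ ∀ x ∈ K, x ∈ S ∧ ∀ y ∈ K, x ≠ y → ¬ G.Adj x y) := by
  induction m with
  | zero =>
    intro p q hpq S hS
    left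
    refine ⟨∅, ?_, ?_⟩
    · simp; omega
    · simp
  | succ m ih =>
    intro p q hpq S hS
    rcases Nat.eq_zero_or_pos p with hp | hp
    · left
      exact ⟨∅, by simp [hp], by simp⟩
    rcases Nat.eq_zero_or_pos q with hq | hq
    · right
      exact ⟨∅, by simp [hq], by simp⟩
    have hpos : 0 < S.card := lt_of_lt_of_le (by positivity) hS
    obtain ⟨v, hv⟩ := Finset.card_pos.mp hpos
    have hsplit : ((S.erase v).filter fun x => G.Adj v x).card +
        ((S.erase v).filter fun x => ¬ G.Adj v x).card = S.card - 1 := by
      rw [Finset.card_filter_add_card_filter_not, Finset.card_erase_of_mem hv]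
    have hpow : 2 ^ (m + 1) = 2 * 2 ^ m := by ring
    have h1 : 0 < 2 ^ m := by positivity
    rcases le_or_gt (2 ^ m) ((S.erase v).filter fun x => G.Adj v x).card with hc | hc
    · rcases ih (p - 1) q (by omega) _ hc with ⟨K, hK, hK2⟩ | ⟨K, hK, hK2⟩
      · left
        have hvK : v ∉ K := by
          intro h
          have := (hK2 v h).1
          simp at this
        refine ⟨insert v K, ?_, ?_⟩
        · rw [Finset.card_insert_of_notMem hvK, hK]; omega
        · intro x hx
          rw [Finset.mem_insert] at hx
          constructor
          · rcases hx with rfl | hx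
            · exact hv
            · have := (hK2 x hx).1
              simp only [Finset.mem_filter, Finset.mem_erase] at this
              exact this.1.2
          · intro y hy hxy
            rw [Finset.mem_insert] at hy
            rcases hx with rfl | hx
            · rcases hy with rfl | hy
              · exact absurd rfl hxy
              · have := (hK2 y hy).1
                simp only [Finset.mem_filter, Finset.mem_erase] at this
                exact this.2
            · rcases hy with rfl | hy
              · have := (hK2 x hx).1
                simp only [Finset.mem_filter, Finset.mem_erase] at this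
                exact this.2.symm
              · exact (hK2 x hx).2 y hy hxy
      · right
        refine ⟨K, hK, fun x hx => ⟨?_, (hK2 x hx).2⟩⟩
        have := (hK2 x hx).1
        simp only [Finset.mem_filter, Finset.mem_erase] at this
        exact this.1.2
    · have hc' : 2 ^ m ≤ ((S.erase v).filter fun x => ¬ G.Adj v x).card := by omega
      rcases ih p (q - 1) (by omega) _ hc' with ⟨K, hK, hK2⟩ | ⟨K, hK, hK2⟩
      · left
        refine ⟨K, hK, fun x hx => ⟨?_, (hK2 x hx).2⟩⟩
        have := (hK2 x hx).1
        simp only [Finset.mem_filter, Finset.mem_erase] at this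
        exact this.1.2
      · right
        have hvK : v ∉ K := by
          intro h
          have := (hK2 v h).1
          simp at this
        refine ⟨insert v K, ?_, ?_⟩
        · rw [Finset.card_insert_of_notMem hvK, hK]; omega
        · intro x hx
          rw [Finset.mem_insert] at hx
          constructor
          · rcases hx with rfl | hx
            · exact hv
            · have := (hK2 x hx).1
              simp only [Finset.mem_filter, Finset.mem_erase] at this
              exact this.1.2
          · intro y hy hxy
            rw [Finset.mem_insert] at hy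
            rcases hx with rfl | hx
            · rcases hy with rfl | hy
              · exact absurd rfl hxy
              · have := (hK2 y hy).1
                simp only [Finset.mem_filter, Finset.mem_erase] at this
                exact this.2
            · rcases hy with rfl | hy
              · have := (hK2 x hx).1
                simp only [Finset.mem_filter, Finset.mem_erase] at this
                exact fun h => this.2 h.symm
              · exact (hK2 x hx).2 y hy hxy

/-- PM-4a -/
theorem ramsey (n : ℕ) : ∃ N : ℕ, ∀ (G : SimpleGraph (Fin N)), ∃ f : Fin n → Fin N,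
    Function.Injective f ∧
      ((∀ i j, i ≠ j → G.Adj (f i) (f j)) ∨ (∀ i j, i ≠ j → ¬ G.Adj (f i) (f j))) := by
  refine ⟨2 ^ (n + n), fun G => ?_⟩
  rcases ramsey_aux G (n + n) n n rfl Finset.univ (by simp) with ⟨K, hK, hK2⟩ | ⟨K, hK, hK2⟩
  · have e : Fin n ≃ K := (Fintype.equivFinOfCardEq (by simp [hK])).symm
    refine ⟨fun i => (e i : Fin _), fun i j hij => e.injective (Subtype.ext hij), Or.inl ?_⟩
    intro i j hij
    exact (hK2 _ (e i).2).2 _ (e j).2 fun h => hij (e.injective (Subtype.ext h))
  · have e : Fin n ≃ K := (Fintype.equivFinOfCardEq (by simp [hK])).symm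
    refine ⟨fun i => (e i : Fin _), fun i j hij => e.injective (Subtype.ext hij), Or.inr ?_⟩
    intro i j hij
    exact (hK2 _ (e i).2).2 _ (e j).2 fun h => hij (e.injective (Subtype.ext h))

/-- PM-4b -/
theorem embed_of_cube {V W : Type} [Fintype W] (H : SimpleGraph W) (hH : H.Colorable 2)
    (G : SimpleGraph V) (c : Fin (Fintype.card W) → V) (ρ : Finset (Fin (Fintype.card W)) → V)
    (hc : Cube G c ρ) (hi : ∀ i j, ¬ G.Adj (c i) (c j)) : Nonempty (H ↪g G) := by
  obtain ⟨col⟩ := hH
  obtain ⟨hρ, hρρ, hρc⟩ := hc
  set e : W ≃ Fin (Fintype.card W) := Fintype.equivFin W with he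
  -- the row pattern of a vertex
  let P : W → Finset (Fin (Fintype.card W)) := fun w =>
    Finset.univ.filter fun j => (col (e.symm j) = 1 ∧ H.Adj w (e.symm j)) ∨ j = e w
  have hP : ∀ w j, j ∈ P w ↔ (col (e.symm j) = 1 ∧ H.Adj w (e.symm j)) ∨ j = e w := by
    intro w j
    simp [P]
  have cinj : Function.Injective c := by
    intro i j hij
    have h1 : G.Adj (ρ {i}) (c i) := (hρc {i} i).mpr (by simp)
    rw [hij] at h1
    have := (hρc {i} j).mp h1
    exact (Finset.mem_singleton.mp this).symm
  have cρ : ∀ i Q, c i ≠ ρ Q := by
    intro i Q h
    have h1 : G.Adj (ρ {i}) (c i) := (hρc {i} i).mpr (by simp)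
    rw [h] at h1
    exact hρρ _ _ h1
  have Pinj : ∀ w w', col w ≠ 1 → col w' ≠ 1 → P w = P w' → w = w' := by
    intro w w' hw hw' h
    have h1 : e w ∈ P w := (hP w (e w)).mpr (Or.inr rfl)
    rw [h, hP] at h1
    rcases h1 with h1 | h1
    · exact absurd (by simpa using h1.1) hw
    · exact e.injective h1
  refine ⟨⟨⟨fun w => if col w = 1 then c (e w) else ρ (P w), ?_⟩, ?_⟩⟩
  · intro w w' h
    by_cases hw : col w = 1 <;> by_cases hw' : col w' = 1
    · simp only [hw, hw', if_true] at h
      exact e.injective (cinj h)
    · simp only [hw, hw', if_true, if_false] at h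
      exact absurd h (cρ _ _)
    · simp only [hw, hw', if_true, if_false] at h
      exact absurd h.symm (cρ _ _)
    · simp only [hw, hw', if_false] at h
      exact Pinj w w' hw hw' (hρ h)
  · intro w w'
    simp only [Function.Embedding.coeFn_mk]
    by_cases hw : col w = 1 <;> by_cases hw' : col w' = 1
    · simp only [hw, hw', if_true]
      constructor
      · intro h; exact absurd h (hi _ _)
      · intro h
        have := col.valid h
        rw [hw, hw'] at this
        exact absurd rfl this
    · simp only [hw, hw', if_true, if_false]
      rw [SimpleGraph.adj_comm, hρc, hP]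
      constructor
      · rintro (⟨h1, h2⟩ | h)
        · simpa using h2.symm
        · exact absurd (by rw [← e.injective h]; exact hw) hw'
      · intro h
        left
        constructor
        · simpa using hw
        · simpa using h.symm
    · simp only [hw, hw', if_true, if_false]
      rw [hρc, hP]
      constructor
      · rintro (⟨h1, h2⟩ | h)
        · simpa using h2
        · exact absurd (by rw [← e.injective h]; exact hw') hw
      · intro h
        left
        constructor
        · simpa using hw'
        · simpa using h
    · simp only [hw, hw', if_false]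
      constructor
      · intro h; exact absurd h (hρρ _ _)
      · intro h
        have := col.valid h
        exfalso
        apply this
        have h0 : ∀ x : Fin 2, x ≠ 1 → x = 0 := by decide
        rw [h0 _ hw, h0 _ hw']

end Pool.Agent.Helper35.PM
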