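import Pool.Agent.Helper48.PM.CubeClique
import Pool.Agent.Helper30.PM.CubeOfPGFinal

/-!
# A projective space minor contains every bipartite pivot-minor
-/

set_option autoImplicit false

namespace Pool.Agent.Helper35.PM

open Finset
open scoped Classical

/-- A cube restricted along an injection. -/
theorem Cube.comp {V : Type} {G : SimpleGraph V} {ι κ : Type} {c : ι → V} {ρ : Finset ι → V}
    (h : Cube G c ρ) (g : κ ↪ ι) : Cube G (fun j => c (g j)) (fun P => ρ (P.map g)) := by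
  obtain ⟨h1, h2, h3⟩ := h
  refine ⟨?_, fun P Q => h2 _ _, fun P j => ?_⟩
  · intro P Q hPQ
    exact Finset.map_injective g (h1 hPQ)
  · rw [h3]
    simp

/-- PM-4 -/
theorem hasPM_of_hasPG {W : Type} [Fintype W] (H : SimpleGraph W)
    (hH : H.Colorable 2) :
    ∃ k : ℕ, 2 ≤ k ∧ ∀ (V : Type) [Fintype V] (G : SimpleGraph V), HasPG G k → HasPM H G := by
  obtain ⟨N, hN⟩ := ramsey (2 * Fintype.card W)
  refine ⟨2 ^ (N + 2), ?_, ?_⟩
  · calc 2 = 2 ^ 1 := by norm_num
      _ ≤ 2 ^ (N + 2) := Nat.pow_le_pow_right (by norm_num) (by omega)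
  intro V _ G hG
  obtain ⟨G', h1, c, ρ, hc⟩ := cube_of_hasPG G (N + 2) (by omega) hG
  have hc0 := hc.comp (Fin.castAddEmb 2 : Fin N ↪ Fin (N + 2))
  set c0 : Fin N → V := fun j => c ((Fin.castAddEmb 2 : Fin N ↪ Fin (N + 2)) j) with hc0def
  set ρ0 : Finset (Fin N) → V := fun P => ρ (P.map (Fin.castAddEmb 2)) with hρ0def
  obtain ⟨f, hf, hh⟩ := hN (G'.comap c0)
  rcases hh with hh | hh
  · -- clique
    have e : Fin (Fintype.card W) × Bool ≃ Fin (2 * Fintype.card W) :=
      (Equiv.prodCongr (Equiv.refl _) finTwoEquiv.symm).trans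
        ((Equiv.prodComm _ _).trans finProdFinEquiv)
    have hc1 := hc0.comp (e.toEmbedding.trans ⟨f, hf⟩)
    obtain ⟨G'', h2, c', ρ', hc2, hi⟩ := cube_of_clique _ G' _ _ hc1 (by
      intro i j hij
      exact hh (e i) (e j) fun h => hij (e.injective h))
    exact ⟨G'', h1.trans h2, embed_of_cube H hH G'' c' ρ' hc2 hi⟩
  · -- independent
    have hc1 := hc0.comp ((Fin.castLEEmb (by omega : Fintype.card W ≤ 2 * Fintype.card W)).trans
      ⟨f, hf⟩)
    refine ⟨G', h1, embed_of_cube H hH G' _ _ hc1 ?_⟩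
    intro i j
    by_cases hij : i = j
    · rw [hij]; exact G'.loopless.irrefl _
    · exact hh _ _ fun h => hij ((Fin.castLEEmb _).injective h)

end Pool.Agent.Helper35.PM
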