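import Pool.Agent.Helper48.PM.RamseyEmbed
import Pool.Agent.Helper15.PM.Pivot

/-!
# From a cube on a clique to a cube on an independent set
-/

set_option autoImplicit false

namespace Pool.Agent.Helper35.PM

open Finset
open scoped Classical

/-- The rows that are still relevant after the indices in `J` have been processed. -/
def RelRow {n : ℕ} (J : Finset (Fin n)) (P : Finset (Fin n × Bool)) : Prop :=
  (∀ x ∈ P, x.2 = false) ∨ ∃ q, q ∉ J ∧ P = {(q, false), (q, true)}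

/-- The invariant. -/
structure CInv {V : Type} {n : ℕ} (c : Fin n × Bool → V) (ρ : Finset (Fin n × Bool) → V)
    (J : Finset (Fin n)) (A : SimpleGraph V) : Prop where
  rr : ∀ P Q, RelRow J P → RelRow J Q → ¬ A.Adj (ρ P) (ρ Q)
  rc : ∀ P, RelRow J P → ∀ j, A.Adj (ρ P) (c j) ↔ j ∈ P
  tt : ∀ q₁ q₂, q₁ ≠ q₂ → A.Adj (c (q₁, true)) (c (q₂, true))
  ft : ∀ q₁ q₂, q₁ ∉ J → A.Adj (c (q₁, false)) (c (q₂, true))
  ft' : ∀ q₁ q₂, q₁ ∈ J → q₂ ∉ J → ¬ A.Adj (c (q₁, false)) (c (q₂, true))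
  ff : ∀ q₁ q₂, q₁ ≠ q₂ → q₁ ∉ J → q₂ ∉ J → A.Adj (c (q₁, false)) (c (q₂, false))
  ff' : ∀ q₁ q₂, q₁ ∈ J → ¬ A.Adj (c (q₁, false)) (c (q₂, false))

theorem RelRow.mono {n : ℕ} {J : Finset (Fin n)} {q : Fin n} {P : Finset (Fin n × Bool)}
    (h : RelRow (insert q J) P) : RelRow J P := by
  rcases h with h | ⟨q', h, h'⟩
  · exact Or.inl h
  · exact Or.inr ⟨q', fun hh => h (Finset.mem_insert_of_mem hh), h'⟩

theorem RelRow.not_mem {n : ℕ} {J : Finset (Fin n)} {q : Fin n} {P : Finset (Fin n × Bool)}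
    (h : RelRow (insert q J) P) : (q, true) ∉ P := by
  intro hm
  rcases h with h | ⟨q', h, h'⟩
  · exact absurd (h _ hm) (by simp)
  · rw [h'] at hm
    simp at hm
    exact h (by simp [hm])

theorem CInv.step {V : Type} {n : ℕ} {c : Fin n × Bool → V} {ρ : Finset (Fin n × Bool) → V}
    {J : Finset (Fin n)} {A : SimpleGraph V} (hA : CInv c ρ J A) (cinj : Function.Injective c)
    (cρ : ∀ i Q, c i ≠ ρ Q) (q : Fin n) (hq : q ∉ J) (B : SimpleGraph V)
    (hB : ∀ x y, B.Adj x y ↔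
      Xor' (A.Adj x y) (x ≠ c (q, true) ∧ x ≠ ρ {(q, false), (q, true)} ∧ y ≠ c (q, true) ∧
        y ≠ ρ {(q, false), (q, true)} ∧
        Xor' (A.Adj (c (q, true)) x ∧ A.Adj (ρ {(q, false), (q, true)}) y)
          (A.Adj (ρ {(q, false), (q, true)}) x ∧ A.Adj (c (q, true)) y))) :
    CInv c ρ (insert q J) B := by
  have hv : RelRow J {(q, false), (q, true)} := Or.inr ⟨q, hq, rfl⟩
  have hur : ∀ P, RelRow (insert q J) P → ¬ A.Adj (c (q, true)) (ρ P) := by
    intro P hP h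
    exact hP.not_mem ((hA.rc P hP.mono _).mp h.symm)
  have hvr : ∀ P, RelRow (insert q J) P → ¬ A.Adj (ρ {(q, false), (q, true)}) (ρ P) := by
    intro P hP
    exact hA.rr _ _ hv hP.mono
  have hvc : ∀ j, A.Adj (ρ {(q, false), (q, true)}) (c j) ↔ (j = (q, false) ∨ j = (q, true)) := by
    intro j
    rw [hA.rc _ hv]
    simp
  -- rows and anything
  have hrow : ∀ P, RelRow (insert q J) P → ∀ y, B.Adj (ρ P) y ↔ A.Adj (ρ P) y := by
    intro P hP y
    rw [hB]
    simp [hur P hP, hvr P hP, Xor', Xor]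
  -- two columns
  have hcol : ∀ j₁ j₂, B.Adj (c j₁) (c j₂) ↔ Xor' (A.Adj (c j₁) (c j₂))
      (j₁ ≠ (q, true) ∧ j₂ ≠ (q, true) ∧
        Xor' (A.Adj (c (q, true)) (c j₁) ∧ j₂ = (q, false))
          (j₁ = (q, false) ∧ A.Adj (c (q, true)) (c j₂))) := by
    intro j₁ j₂
    rw [hB]
    simp only [ne_eq, cinj.eq_iff, cρ, not_false_eq_true, true_and, hvc]
    by_cases h1 : j₁ = (q, true) <;> by_cases h2 : j₂ = (q, true) <;> simp [h1, h2]
  refine ⟨?_, ?_, ?_, ?_, ?_, ?_, ?_⟩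
  · intro P Q hP hQ
    rw [hrow P hP]
    exact hA.rr _ _ hP.mono hQ.mono
  · intro P hP j
    rw [hrow P hP]
    exact hA.rc _ hP.mono j
  · intro q₁ q₂ h
    rw [hcol]
    simp [Xor', hA.tt q₁ q₂ h]
  · intro q₁ q₂ h
    rw [Finset.mem_insert, not_or] at h
    rw [hcol]
    simp [Xor', hA.ft q₁ q₂ h.2, h.1]
  · intro q₁ q₂ h h'
    rw [Finset.mem_insert, not_or] at h'
    rw [Finset.mem_insert] at h
    rw [hcol]
    by_cases h1 : q₁ = q
    · subst h1
      simp [Xor', hA.ft q₁ q₂ hq, h'.1, hA.tt q₁ q₂ (Ne.symm h'.1)]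
    · have h2 : q₁ ∈ J := by
        rcases h with h | h
        · exact absurd h h1
        · exact h
      simp [Xor', hA.ft' q₁ q₂ h2 h'.2, h1]
  · intro q₁ q₂ h h1 h2
    rw [Finset.mem_insert, not_or] at h1 h2
    rw [hcol]
    simp [Xor', hA.ff q₁ q₂ h h1.2 h2.2, h1.1, h2.1]
  · intro q₁ q₂ h
    by_cases h12 : q₁ = q₂
    · rw [h12]; exact B.loopless.irrefl _
    rw [Finset.mem_insert] at h
    rw [hcol]
    by_cases h1 : q₁ = q
    · subst h1
      by_cases h2 : q₂ ∈ J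
      · have e1 : ¬ A.Adj (c (q₁, false)) (c (q₂, false)) := fun e => hA.ff' q₂ q₁ h2 e.symm
        have e2 : ¬ A.Adj (c (q₁, true)) (c (q₂, false)) := fun e => hA.ft' q₂ q₁ h2 hq e.symm
        simp [Xor', e1, e2, Ne.symm h12]
      · have e1 : A.Adj (c (q₁, false)) (c (q₂, false)) := hA.ff q₁ q₂ h12 hq h2
        have e2 : A.Adj (c (q₁, true)) (c (q₂, false)) := (hA.ft q₂ q₁ h2).symm
        simp [Xor', e1, e2, Ne.symm h12]
    · have h2 : q₁ ∈ J := by
        rcases h with h | h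
        · exact absurd h h1
        · exact h
      have e2 : ¬ A.Adj (c (q, true)) (c (q₁, false)) := fun e => hA.ft' q₁ q h2 hq e.symm
      simp [Xor', hA.ff' q₁ q₂ h2, h1, e2]

theorem exists_cinv {V : Type} [Fintype V] (n : ℕ) (G : SimpleGraph V)
    (c : Fin n × Bool → V) (ρ : Finset (Fin n × Bool) → V) (hc : Cube G c ρ)
    (hi : ∀ i j, i ≠ j → G.Adj (c i) (c j)) (J : Finset (Fin n)) :
    ∃ G' : SimpleGraph V, Relation.ReflTransGen PivotStep G G' ∧ CInv c ρ J G' := by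
  obtain ⟨hρ, hρρ, hρc⟩ := hc
  have cinj : Function.Injective c := by
    intro i j hij
    by_contra h
    exact (hi i j h).ne hij
  have cρ : ∀ i Q, c i ≠ ρ Q := by
    intro i Q h
    have h1 : G.Adj (ρ {i}) (c i) := (hρc {i} i).mpr (by simp)
    rw [h] at h1
    exact hρρ _ _ h1
  induction J using Finset.induction_on with
  | empty =>
    refine ⟨G, Relation.ReflTransGen.refl, ?_⟩
    refine ⟨fun P Q _ _ => hρρ P Q, fun P _ j => hρc P j, ?_, ?_, ?_, ?_, ?_⟩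
    · intro q₁ q₂ h
      exact hi _ _ (by simp [h])
    · intro q₁ q₂ _
      exact hi _ _ (by simp)
    · intro q₁ q₂ h
      simp at h
    · intro q₁ q₂ h _ _
      exact hi _ _ (by simp [h])
    · intro q₁ q₂ h
      simp at h
  | insert q J hq ih =>
    obtain ⟨A, hA1, hA2⟩ := ih
    have hadj : A.Adj (c (q, true)) (ρ {(q, false), (q, true)}) := by
      refine ((hA2.rc _ (Or.inr ⟨q, hq, rfl⟩) (q, true)).mpr (by simp)).symm
    obtain ⟨B, hB1, hB2⟩ := pivot_exists A _ _ hadj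
    exact ⟨B, hA1.tail hB1, hA2.step cinj cρ q hq B hB2⟩

/-- PM-4c -/
theorem cube_of_clique {V : Type} [Fintype V] (n : ℕ) (G : SimpleGraph V)
    (c : Fin n × Bool → V) (ρ : Finset (Fin n × Bool) → V) (hc : Cube G c ρ)
    (hi : ∀ i j, i ≠ j → G.Adj (c i) (c j)) :
    ∃ G' : SimpleGraph V, Relation.ReflTransGen PivotStep G G' ∧
      ∃ (c' : Fin n → V) (ρ' : Finset (Fin n) → V), Cube G' c' ρ' ∧
        ∀ i j, ¬ G'.Adj (c' i) (c' j) := by
  obtain ⟨G', h1, h2⟩ := exists_cinv n G c ρ hc hi Finset.univ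
  have hr : ∀ P : Finset (Fin n), RelRow Finset.univ (P.image fun q => (q, false)) := by
    intro P
    left
    intro x hx
    rw [Finset.mem_image] at hx
    obtain ⟨q, _, rfl⟩ := hx
    rfl
  refine ⟨G', h1, fun q => c (q, false), fun P => ρ (P.image fun q => (q, false)), ⟨?_, ?_, ?_⟩, ?_⟩
  · intro P Q h
    have h3 := hc.1 h
    exact Finset.image_injective (fun a b hab => by simpa using hab) h3
  · intro P Q
    exact h2.rr _ _ (hr P) (hr Q)
  · intro P j
    rw [h2.rc _ (hr P)]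
    simp
  · intro i j
    exact h2.ff' i j (Finset.mem_univ _)

end Pool.Agent.Helper35.PM
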